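import Pool.Graph.R_seed8.Helper277.ZG.All
import Pool.Agent.KS6_89.OStar.Main

/-!
# MP_c394df_al: `k`-Engel groups acting on chains

For every `k` there is `c` such that in every `k`-Engel group `G` the term `γ_{c+1}(G)` of the lower central
series acts trivially on every linearly ordered set on which `G` acts by order automorphisms. If `G` is
right-orderable, then it is nilpotent of class at most `c`, every right order on `G` is a Conrad right order, and
`G` is even an `O*`-group: it has a two-sided total order and every two-sided partial order extends to such an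
order.
-/

set_option autoImplicit false

namespace Pool.Agent.Results.MP_c394df_al.ChainActions

/-- `G` is `k`-Engel: `[x, y, …, y] = 1` (`y` repeated `k` times), where `[z, y] = z⁻¹ y⁻¹ z y`. -/
def IsEngel (k : ℕ) (G : Type) [Group G] : Prop :=
  ∀ x y : G, (fun z : G => z⁻¹ * y⁻¹ * z * y)^[k] x = 1

/-- `r` is a right order on `G`: a total order with `x ≤ y → x b ≤ y b`. -/
def IsRightOrder {G : Type} [Group G] (r : G → G → Prop) : Prop :=
  (∀ x y : G, r x y ∨ r y x) ∧ (∀ x y : G, r x y → r y x → x = y) ∧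
    (∀ x y z : G, r x y → r y z → r x z) ∧ (∀ x y b : G, r x y → r (x * b) (y * b))

/-- The subgroup `K` is convex for the order `r`. -/
def IsConvexSubgroup {G : Type} [Group G] (r : G → G → Prop) (K : Subgroup G) : Prop :=
  ∀ a b c : G, a ∈ K → c ∈ K → r a b → r b c → b ∈ K

/-- The right order `r` is a Conrad right order: for every convex jump `C ⊂ D` (convex subgroups with no convex
subgroup strictly between) `C` is normal in `D` and the order induced on `D / C` is archimedean. -/
def IsConrad {G : Type} [Group G] (r : G → G → Prop) : Prop :=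
  ∀ C D : Subgroup G, IsConvexSubgroup r C → IsConvexSubgroup r D → C < D →
    (∀ K : Subgroup G, IsConvexSubgroup r K → C ≤ K → K ≤ D → K = C ∨ K = D) →
    (∀ c d : G, c ∈ C → d ∈ D → d⁻¹ * c * d ∈ C) ∧
    ∀ x y : G, x ∈ D → x ∉ C → r 1 x → y ∈ D → ∃ m : ℕ, r y (x ^ m)

/-- `P` is the set of elements `> 1` of a two-sided partial order on `G`. -/
def OrderCone {G : Type} [Group G] (P : Set G) : Prop :=
  (∀ a ∈ P, ∀ b ∈ P, a * b ∈ P) ∧ (∀ a ∈ P, ∀ g : G, g * a * g⁻¹ ∈ P) ∧ (1 : G) ∉ P

/-- `P` is the set of elements `> 1` of a two-sided total order on `G`. -/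
def TotalOrderCone {G : Type} [Group G] (P : Set G) : Prop :=
  OrderCone P ∧ ∀ g : G, g ≠ 1 → g ∈ P ∨ g⁻¹ ∈ P

section chain

variable {Ω : Type} [LinearOrder Ω]

/-- comparison of the inverses at the first point (of a well order) where they differ -/
def slt (a b : Ω ≃o Ω) : Prop :=
  ∃ w : Ω, a⁻¹ w < b⁻¹ w ∧ ∀ w', WellOrderingRel w' w → a⁻¹ w' = b⁻¹ w'

lemma slt_trans {a b c : Ω ≃o Ω} (h1 : slt a b) (h2 : slt b c) : slt a c := by
  obtain ⟨w1, l1, e1⟩ := h1
  obtain ⟨w2, l2, e2⟩ := h2
  rcases trichotomous_of WellOrderingRel w1 w2 with h | h | h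
  · exact ⟨w1, by rw [← e2 w1 h]; exact l1, fun w' hw' => (e1 w' hw').trans (e2 w' (_root_.trans hw' h))⟩
  · subst h
    exact ⟨w1, l1.trans l2, fun w' hw' => (e1 w' hw').trans (e2 w' hw')⟩
  · exact ⟨w2, by rw [e1 w2 h]; exact l2, fun w' hw' => (e1 w' (_root_.trans hw' h)).trans (e2 w' hw')⟩

lemma slt_irrefl (a : Ω ≃o Ω) : ¬ slt a a := fun ⟨_, h, _⟩ => lt_irrefl _ h

lemma slt_total {a b : Ω ≃o Ω} (h : a ≠ b) : slt a b ∨ slt b a := by
  have hne : {w : Ω | a⁻¹ w ≠ b⁻¹ w}.Nonempty := by
    by_contra hcon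
    rw [Set.not_nonempty_iff_eq_empty, Set.eq_empty_iff_forall_notMem] at hcon
    apply h
    apply inv_injective
    ext w
    by_contra hw
    exact hcon w hw
  have wf : WellFounded (WellOrderingRel : Ω → Ω → Prop) := WellOrderingRel.isWellOrder.wf
  have hm := wf.min_mem _ hne
  have hmin : ∀ w', WellOrderingRel w' (wf.min _ hne) → a⁻¹ w' = b⁻¹ w' := by
    intro w' hw'
    by_contra hcon
    exact wf.not_lt_min _ hcon hw'
  rcases lt_or_gt_of_ne hm with h1 | h1
  · exact Or.inl ⟨_, h1, hmin⟩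
  · exact Or.inr ⟨_, h1, fun w' hw' => (hmin w' hw').symm⟩

lemma slt_mul {a b : Ω ≃o Ω} (h : slt a b) (d : Ω ≃o Ω) : slt (a * d) (b * d) := by
  obtain ⟨w, l, e⟩ := h
  refine ⟨w, ?_, fun w' hw' => ?_⟩
  · rw [mul_inv_rev, mul_inv_rev]
    exact (d⁻¹).lt_iff_lt.2 l
  · rw [mul_inv_rev, mul_inv_rev]
    exact congrArg (d⁻¹ : Ω ≃o Ω) (e w' hw')

/-- groups of order automorphisms of a chain are right-orderable -/
lemma rightOrder_of_chain (H : Subgroup (Ω ≃o Ω)) :
    IsRightOrder (fun a b : H => a = b ∨ slt (a : Ω ≃o Ω) (b : Ω ≃o Ω)) := by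
  refine ⟨fun x y => ?_, fun x y h1 h2 => ?_, fun x y z h1 h2 => ?_, fun x y b h => ?_⟩
  · by_cases h : x = y
    · exact Or.inl (Or.inl h)
    · rcases slt_total (fun e => h (Subtype.ext e) : (x : Ω ≃o Ω) ≠ y) with h | h
      · exact Or.inl (Or.inr h)
      · exact Or.inr (Or.inr h)
  · rcases h1 with h1 | h1
    · exact h1
    · rcases h2 with h2 | h2
      · exact h2.symm
      · exact absurd (slt_trans h1 h2) (slt_irrefl _)
  · rcases h1 with rfl | h1
    · exact h2
    · rcases h2 with rfl | h2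
      · exact Or.inr h1
      · exact Or.inr (slt_trans h1 h2)
  · rcases h with rfl | h
    · exact Or.inl rfl
    · exact Or.inr (slt_mul h _)

end chain

lemma engel_map {k : ℕ} {G H : Type} [Group G] [Group H] (f : G →* H) (hf : Function.Surjective f)
    (hE : IsEngel k G) : IsEngel k H := by
  intro x y
  obtain ⟨x, rfl⟩ := hf x
  obtain ⟨y, rfl⟩ := hf y
  have key : ∀ n : ℕ, (fun z : H => z⁻¹ * (f y)⁻¹ * z * f y)^[n] (f x) =
      f ((fun z : G => z⁻¹ * y⁻¹ * z * y)^[n] x) := by
    intro n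
    induction n with
    | zero => rfl
    | succ n ih =>
      rw [Function.iterate_succ_apply', Function.iterate_succ_apply', ih]
      simp only [map_mul, map_inv]
  rw [key, hE x y, map_one]

lemma lcs_map {G H : Type} [Group G] [Group H] (f : G →* H) (n : ℕ) :
    (Subgroup.lowerCentralSeries (⊤ : Subgroup G) n).map f ≤ Subgroup.lowerCentralSeries (⊤ : Subgroup H) n := by
  induction n with
  | zero => simp [Subgroup.lowerCentralSeries]
  | succ n ih =>
    show (⁅Subgroup.lowerCentralSeries (⊤ : Subgroup G) n, (⊤ : Subgroup G)⁆).map f ≤ _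
    rw [Subgroup.map_commutator]
    exact Subgroup.commutator_mono ih le_top

/-- right-orderable groups are torsion-free -/
lemma torsionFree {G : Type} [Group G] {r : G → G → Prop} (hr : IsRightOrder r) (g : G) (n : ℕ) (hn : 0 < n)
    (h : g ^ n = 1) : g = 1 := by
  obtain ⟨htot, hanti, htr, hmul⟩ := hr
  obtain ⟨m, rfl⟩ : ∃ m, n = m + 1 := ⟨n - 1, by omega⟩
  have up : r 1 g → ∀ j : ℕ, r g (g ^ (j + 1)) := by
    intro h1 j
    induction j with
    | zero =>
      rw [pow_one]
      rcases htot g g with h | h <;> exact h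
    | succ j ih =>
      have h2 : r (1 * g) (g ^ (j + 1) * g) := hmul _ _ _ (htr _ _ _ h1 ih)
      rwa [one_mul, ← pow_succ] at h2
  have dn : r g 1 → ∀ j : ℕ, r (g ^ (j + 1)) g := by
    intro h1 j
    induction j with
    | zero =>
      rw [pow_one]
      rcases htot g g with h | h <;> exact h
    | succ j ih =>
      have h2 : r (g ^ (j + 1) * g) (1 * g) := hmul _ _ _ (htr _ _ _ ih h1)
      rwa [one_mul, ← pow_succ] at h2
  rcases htot 1 g with h1 | h1
  · have := up h1 m
    rw [h] at this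
    exact hanti _ _ this h1
  · have := dn h1 m
    rw [h] at this
    exact hanti _ _ h1 this

open H294OStar in
/-- torsion-free nilpotent groups are `O*` -/
theorem oStar_of_nilpotent {G : Type} [Group G] (hnil : Group.IsNilpotent G)
    (htf : ∀ (g : G) (n : ℕ), 0 < n → g ^ n = 1 → g = 1) (Q : Set G) (hQ : OrderCone Q) :
    ∃ P : Set G, Q ⊆ P ∧ TotalOrderCone P := by
  haveI := hnil
  have hR0 : ∀ g : G, g ≠ 1 → ¬ NS g 1 := by
    intro g hg h
    apply hg
    have h1 : g ∈ (⊥ : Subgroup G) := by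
      refine rel_torsion (⊤ : Subgroup G) ⊥ inferInstance inferInstance bot_le
        (ls_of_nilpotent ⊥ inferInstance) ?_ g 1 (Subgroup.mem_top g) h (Subgroup.one_mem _)
      intro x _ n hn hx
      rw [Subgroup.mem_bot] at hx ⊢
      exact htf x n hn hx
    exact Subgroup.mem_bot.1 h1
  have hloc : Pool.Agent.KS6_89.OStar.LocallyAbelianByNilpotent G := by
    intro H _
    exact ⟨⊥, inferInstance, fun a ha b hb => by
      rw [Subgroup.mem_bot] at ha hb
      rw [ha, hb], inferInstance⟩
  obtain ⟨P, h1, h2, h3⟩ := Pool.Agent.KS6_89.OStar.main hloc hR0 Q ⟨hQ.1, hQ.2.1, hQ.2.2⟩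
  exact ⟨P, h1, ⟨h2.mul, h2.conj, h2.one⟩, h3⟩

/-- For every `k` there is `c` such that for every `k`-Engel group `G`: (1) in every action of `G` on a linearly
ordered set by order automorphisms the term `γ_{c+1}(G)` acts trivially; (2) if `G` has a right order, then `G` is
nilpotent of class at most `c`; (3) every right order on `G` is a Conrad right order; (4) if `G` has a right
order, then every two-sided partial order on `G` extends to a two-sided total order, in particular there is one. -/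
theorem result : ∀ k : ℕ, ∃ c : ℕ, ∀ (G : Type) [Group G], IsEngel k G →
    (∀ (Ω : Type) [LinearOrder Ω] (ρ : G →* (Ω ≃o Ω)),
      ∀ g ∈ Subgroup.lowerCentralSeries (⊤ : Subgroup G) c, ρ g = 1) ∧
    ((∃ r : G → G → Prop, IsRightOrder r) → Subgroup.lowerCentralSeries (⊤ : Subgroup G) c = ⊥) ∧
    (∀ r : G → G → Prop, IsRightOrder r → IsConrad r) ∧
    ((∃ r : G → G → Prop, IsRightOrder r) → ∀ Q : Set G, OrderCone Q →
      ∃ P : Set G, Q ⊆ P ∧ TotalOrderCone P) := by
  intro k
  obtain ⟨c, hc⟩ := Pool.Agent.Helper277.ZG.H94.ZelGroup.zel_S02987_of Pool.Agent.Helper277.zelLie k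
  have hc' : ∀ (G : Type) [Group G], (∃ r : G → G → Prop, IsRightOrder r) → IsEngel k G →
      Subgroup.lowerCentralSeries (⊤ : Subgroup G) c = ⊥ := by
    intro G _ hr hE
    exact Subgroup.lowerCentralSeries_eq_bot_iff_upperCentralSeries_eq_top.2 (hc G hr hE)
  refine ⟨c, ?_⟩
  intro G _ hE
  refine ⟨?_, fun hr => hc' G hr hE, ?_, ?_⟩
  · intro Ω _ ρ g hg
    have h1 := hc' ρ.range ⟨_, rightOrder_of_chain ρ.range⟩
      (engel_map ρ.rangeRestrict ρ.rangeRestrict_surjective hE)
    have h2 := lcs_map ρ.rangeRestrict c (Subgroup.mem_map_of_mem _ hg)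
    rw [h1, Subgroup.mem_bot] at h2
    exact congrArg Subtype.val h2
  · intro r hr C D hC hD hlt hjump
    obtain ⟨htot, hanti, htr, hmul⟩ := hr
    have hrefl : ∀ a : G, r a a := fun a => by rcases htot a a with h | h <;> exact h
    have conv : ∀ K : Subgroup G,
        (∀ a b c : G, a ∈ K → c ∈ K → (r a b ∧ a ≠ b) → (r b c ∧ b ≠ c) → b ∈ K) → IsConvexSubgroup r K := by
      intro K hK a b c ha hc h1 h2
      by_cases hab : a = b
      · rw [← hab]; exact ha
      by_cases hbc : b = c
      · rw [hbc]; exact hc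
      exact hK a b c ha hc ⟨h1, hab⟩ ⟨h2, hbc⟩
    have h := (Pool.Agent.Helper277.ZG.H94.right_order_jumps (n := k) (G := G) hE
      (fun a b => r a b ∧ a ≠ b) (fun a h => h.2 rfl)
      (by
        rintro a b d ⟨h1, h1'⟩ ⟨h2, h2'⟩
        refine ⟨htr _ _ _ h1 h2, ?_⟩
        rintro rfl
        exact h1' (hanti _ _ h1 h2))
      (by
        intro a b
        by_cases hab : a = b
        · exact Or.inl hab
        · rcases htot a b with h | h
          · exact Or.inr (Or.inl ⟨h, hab⟩)
          · exact Or.inr (Or.inr ⟨h, fun h' => hab h'.symm⟩))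
      (by
        rintro a b d ⟨h1, h1'⟩
        exact ⟨hmul _ _ _ h1, fun h => h1' (mul_right_cancel h)⟩)).1 C D
      (fun a b c ha hc h1 h2 => hC a b c ha hc h1.1 h2.1) (fun a b c ha hc h1 h2 => hD a b c ha hc h1.1 h2.1)
      hlt (fun K hK h1 h2 => hjump K (conv K hK) h1 h2)
    refine ⟨h.1, fun x y hx hxC h1x hy => ?_⟩
    have hx1 : (1 : G) ≠ x := by
      rintro rfl
      exact hxC C.one_mem
    obtain ⟨m, hm⟩ := h.2 x y hx hxC ⟨h1x, hx1⟩ hy
    exact ⟨m, hm.1⟩
  · rintro ⟨r, hr⟩ Q hQ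
    refine oStar_of_nilpotent ⟨⟨c, hc G ⟨r, hr⟩ hE⟩⟩ (fun g n hn h => torsionFree hr g n hn h) Q hQ

end Pool.Agent.Results.MP_c394df_al.ChainActions
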